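import Pool.Agent.R617.VC.Deg
set_option autoImplicit false

/-!
# Weighted vertex cover on sparse graphs is not hard to approximate under constant-depth reductions

The known hardness results for the approximation of vertex cover, also the conditional ones with ratios
near two, are proved for graphs of bounded degree (with ratios that tend to two when the degree grows).
Here it is shown that such results, for any ratio `ρ > 1`, are impossible with constant-depth reductions:
a many-one reduction from parity on `N` bits to the gap problem of vertex cover with the ratio `ρ` on
graphs of degree at most `D` that is computed by circuits of depth `h` has size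
`2 ^ (Ω ((ρ - 1) N / (ρ (D + b))) ^ (1 / (h + 1)))`. This is exponential also for growing degrees
`D ≤ N ^ (1 - γ)`. (For dense graphs and ratios near two see `ConstantDepthReductions`.)

The output of the reduction is as in `ConstantDepthReductions`: a bit for the presence of each vertex of
a finite set `V` with arbitrary fixed weights, a bit for each pair of vertices, and a bound that is an
arbitrary function `val` of `b` output bits. The degree has to be bounded only for the instances without
a cheap cover. The definitions `Covers`, `weight` are in `Pool/Agent/R617/VC/Core.lean`, `edges` in
`Pool/Agent/R617/VC/Deg.lean`; circuits (`Circuit`, `nodeVal`, `nodeDepth`) are defined in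
`Pool/Agent/H568R2/Defs.lean`.

Idea of the proof. After a random restriction all output bits are decision trees of small depth `s`. At an
input `z` with an odd number of ones each edge is changed by at most `3 s` of the free variables. A cover
of the instance of a neighbour of `z` becomes a cover of the instance of `z` if the lighter ends of the
changed edges are added; on average over the neighbours this costs little, since the sum over all edges of
the weights of the lighter ends is at most `D` times the optimum.
-/

namespace Pool.Agent.Results.MP_cff830_lc.BoundedDegreeReductions

open Finset DomAC0 Pool.Agent.R617.VC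
open scoped Classical

/-- **No ratio `ρ > 1` is hard under constant-depth reductions on graphs of bounded degree.** For every
depth `h` there is `X₀` with the following property. Let `C` be a circuit with `N` inputs whose output nodes
`ver u`, `edge u v` (`u, v ∈ V`) and `thr j` (`j < b`) have depth at most `h`. For an input `x` they give the
graph `G x` with the vertices `u` whose bit `ver u` is one and the edges `(u, v)` whose bit `edge u v` is
one, and the bound `k x = val (values of thr)`, `k x > 0`. Suppose that for all `x` with an even number of
ones `G x` has a vertex cover of weight at most `k x`, and that for all `x` with an odd number of ones every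
vertex of `G x` is in at most `D` edges and every vertex cover of `G x` has weight at least `ρ k x`. If
`X = (ρ - 1) N / (ρ (D + b)) ≥ X₀`, then `C` has at least `2 ^ (X ^ (1 / (h + 1)) / 100)` gates. -/
theorem result (h : ℕ) : ∃ X₀ : ℝ, ∀ (N : ℕ) (C : Circuit (Fin N)) (V : Type) [Fintype V]
    (w : V → ℝ) (b : ℕ) (ver : V → Fin N ⊕ Fin C.size) (edge : V → V → Fin N ⊕ Fin C.size)
    (thr : Fin b → Fin N ⊕ Fin C.size) (val : (Fin b → Bool) → ℝ) (ρ : ℝ) (D : ℕ),
    (∀ u, 0 ≤ w u) → (∀ x, 0 < val fun j => C.nodeVal x (thr j)) → 1 < ρ →
    (∀ u, C.nodeDepth (ver u) ≤ h) → (∀ u v, C.nodeDepth (edge u v) ≤ h) →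
    (∀ j, C.nodeDepth (thr j) ≤ h) →
    (∀ x : Fin N → Bool, ¬ Odd (univ.filter fun i => x i = true).card →
      ∃ T : Finset V,
        Covers (fun u => C.nodeVal x (ver u)) (fun u v => C.nodeVal x (edge u v)) T ∧
        weight w (fun u => C.nodeVal x (ver u)) T ≤ val fun j => C.nodeVal x (thr j)) →
    (∀ x : Fin N → Bool, Odd (univ.filter fun i => x i = true).card → ∀ u,
      ((edges (fun u => C.nodeVal x (ver u)) (fun u v => C.nodeVal x (edge u v))).filter
        fun e => e.1 = u ∨ e.2 = u).card ≤ D) →
    (∀ x : Fin N → Bool, Odd (univ.filter fun i => x i = true).card → ∀ T : Finset V,
      Covers (fun u => C.nodeVal x (ver u)) (fun u v => C.nodeVal x (edge u v)) T →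
      ρ * (val fun j => C.nodeVal x (thr j)) ≤ weight w (fun u => C.nodeVal x (ver u)) T) →
    X₀ ≤ (ρ - 1) * N / (ρ * (D + b)) →
    (2 : ℝ) ^ (((ρ - 1) * N / (ρ * (D + b))) ^ (1 / (h + 1 : ℝ)) / 100) ≤ C.size :=
  deg_main h

end Pool.Agent.Results.MP_cff830_lc.BoundedDegreeReductions
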