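import Pool.Agent.R617.VC.Main
set_option autoImplicit false

/-!
# Vertex cover with a ratio close to two and constant-depth reductions

The question asks whether approximating weighted vertex cover with a ratio `2 - η` is NP-hard for every
constant `η > 0`. Many NP-hardness proofs give many-one reductions that are computed by circuits of
constant depth and polynomial size. Here it is shown that with such reductions the exponent of the
polynomial must tend to infinity when the ratio tends to two: already a reduction from parity (which is
a restriction of all the usual NP-complete problems) to the gap problem with the ratio `2 - η` has size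
at least `N ^ (1 / (1000 η))` on inputs with `N` bits.

The output of the reduction is a weighted graph on a set `V` with arbitrary fixed weights `w`, one
output bit for each vertex (is it present?), one for each pair (is it an edge?), and a bound that is an
arbitrary function `val` of at most `N ^ (1/4)` output bits. There is no assumption on the number of
vertices (it may be any finite number), the density of the graph or the size of the optimum. The
definitions `Covers`, `weight` are in `Pool/Agent/R617/VC/Core.lean`; circuits (`Circuit`, `nodeVal`,
`nodeDepth`) are defined in `Pool/Agent/H568R2/Defs.lean`.

Idea of the proof. After a random restriction all output bits are decision trees of small depth. Take an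
input `z` with an odd number of ones and many free variables which do not change the bound. The instances
of the neighbours of `z` have covers `T_i` with cost at most `k`. Take `n` random neighbours; then every
output bit changes for at most `t` of them, and so the vertices that lie in at least `(n - 3t) / 2` of the
sampled covers form a cover of the instance of `z`. By Markov's inequality its mean cost is about `2 k`;
since the number of the sampled covers that contain a given vertex deviates from `n / 2` by `√n / 4`
on average (fourth moment), Markov's inequality is not sharp for any vertex: the mean cost is at most
`2 k (1 - 1 / (768 (t + 1)))`, for `n ≈ 9216 (t + 1) ^ 2`. Here `t` is about twice the exponent of the size.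
-/

namespace Pool.Agent.Results.MP_cff830_lc.ConstantDepthReductions

open Finset DomAC0 Pool.Agent.R617.VC

/-- **Constant-depth reductions to vertex cover with ratio `2 - η` need size `N ^ (1 / (1000 η))`.**
For every depth `h` and every `0 < η ≤ 1/4000` the following holds for all sufficiently large `N`. Let `C`
be a circuit with `N` inputs (NOT gates and AND and OR gates of unbounded fan-in), and let the output nodes
`ver u`, `edge u v` (`u, v ∈ V`) and `thr j` (`j < b`, `b ^ 4 ≤ N`) have depth at most `h`. For an input `x`
they give the graph `G x` with the vertices `u` whose bit `ver u` is one and the edges `(u, v)` whose bit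
`edge u v` is one, and the bound `k x = val (values of thr)`, `k x > 0`. If for all `x` with an even number
of ones `G x` has a vertex cover of weight at most `k x`, and for all `x` with an odd number of ones every
vertex cover of `G x` has weight at least `(2 - η) k x`, then `C` has at least `N ^ (1 / (1000 η))` gates. -/
theorem result (h : ℕ) (η : ℝ) (hη0 : 0 < η) (hη : η ≤ 1 / 4000) :
    ∃ N₀ : ℕ, ∀ N : ℕ, N₀ ≤ N → ∀ (C : Circuit (Fin N)) (V : Type) [Fintype V] (w : V → ℝ)
      (b : ℕ) (ver : V → Fin N ⊕ Fin C.size) (edge : V → V → Fin N ⊕ Fin C.size)
      (thr : Fin b → Fin N ⊕ Fin C.size) (val : (Fin b → Bool) → ℝ),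
      (∀ u, 0 ≤ w u) → (∀ x, 0 < val fun j => C.nodeVal x (thr j)) → b ^ 4 ≤ N →
      (∀ u, C.nodeDepth (ver u) ≤ h) → (∀ u v, C.nodeDepth (edge u v) ≤ h) →
      (∀ j, C.nodeDepth (thr j) ≤ h) →
      (∀ x : Fin N → Bool, ¬ Odd (univ.filter fun i => x i = true).card →
        ∃ T : Finset V,
          Covers (fun u => C.nodeVal x (ver u)) (fun u v => C.nodeVal x (edge u v)) T ∧
          weight w (fun u => C.nodeVal x (ver u)) T ≤ val fun j => C.nodeVal x (thr j)) →
      (∀ x : Fin N → Bool, Odd (univ.filter fun i => x i = true).card → ∀ T : Finset V,
        Covers (fun u => C.nodeVal x (ver u)) (fun u v => C.nodeVal x (edge u v)) T →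
        (2 - η) * (val fun j => C.nodeVal x (thr j)) ≤ weight w (fun u => C.nodeVal x (ver u)) T) →
      (N : ℝ) ^ (1 / (1000 * η)) ≤ C.size :=
  main h η hη0 hη

end Pool.Agent.Results.MP_cff830_lc.ConstantDepthReductions
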