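import Pool.Agent.R562.RS.Cover

set_option autoImplicit false

/-!
# Reductions to weighted vertex cover whose neighbourhoods are computed by quantum queries

The definitions used in the statement are `sens` and `avgSens` (average sensitivity) and `parity` in
`Pool/Agent/R562/RS/Core.lean`, `QuantumAlgorithm` and `QuantumAlgorithm.prob` in
`Pool/Agent/R562/RS/Quant.lean`, and `IsCover`, `CoverCorrect`, `CoverReduction` in
`Pool/Agent/R562/RS/Cover.lean`.

A reduction from a Boolean function `f` of `N` bits to the approximation of weighted vertex cover
computes graphs `G x` on a set of vertices with fixed weights `w ≥ 0` and a bound `s x`, such that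
the minimum vertex cover has weight at most `s x` if `f x` is true and at least `c s x` if `f x` is
false. Let `σ` be a lower bound for all `s x` and let `W` be the weight of all vertices. If for every
vertex its neighbourhood together with the bound is computed, with error probability at most `q`, by
a quantum algorithm with `T` queries to the `N` bits (and with free other operations), then
`2 T ≥ (1 - 2 √(q (1 - q))) (1 - 2 e) (c - 1) (σ / W) avgSens f`, where `e` is the error probability
of the reduction. For parity the average sensitivity is `N`. So for every constant ratio `c > 1` and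
`σ ≥ Ω(W)` (as in the known hardness proofs, and as can be assumed by the theorem of Nemhauser and
Trotter) a reduction from parity needs `Ω(N)` quantum queries for the average neighbourhood, where
`⌈N / 2⌉` queries are enough to compute parity itself. There is no bound on the degrees.

Proof: If `C` is a vertex cover of `G x`, then `C` together with all vertices whose neighbourhoods in
`G x` and `G x'` are different is a vertex cover of `G x'`. So, if the bounds are equal, the
neighbourhoods of vertices of weight at least `(c - 1) s x` change if the answer changes, and some
neighbourhood has average sensitivity at least `(1 - 2 e) (c - 1) (σ / W) avgSens f`. The amplitudes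
of a quantum algorithm are polynomials of degree at most `T`, so the total influence of the vector of
the amplitudes is at most `4 T`.
-/

namespace Pool.Agent.Results.MP_cff830_lc.QuantumReductions

open Pool.Agent.R562.RS

theorem result :
    (∀ (N T : ℕ) (V Ω : Type) [Fintype V] [Fintype Ω] [Nonempty Ω] (w : V → ℝ) (c σ e q : ℝ)
      (f : (Fin N → Bool) → Bool) (G : Ω → (Fin N → Bool) → SimpleGraph V)
      (s : Ω → (Fin N → Bool) → ℝ),
      (∀ v, 0 ≤ w v) → 1 ≤ c → 0 ≤ σ → (∀ ω x, σ ≤ s ω x) → 0 ≤ q → q ≤ 1 / 2 →
      CoverReduction w c e f G s →
      (∀ ω v, ∃ Q : QuantumAlgorithm N T (Set V × ℝ), ∀ x,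
        1 - q ≤ Q.prob x ((G ω x).neighborSet v, s ω x)) →
      (1 - 2 * Real.sqrt (q * (1 - q))) * ((1 - 2 * e) * ((c - 1) * σ) * avgSens f) ≤
        2 * T * ∑ v, w v) ∧
    ∀ N : ℕ, avgSens (parity N) = N := by
  refine ⟨?_, avgSens_parity⟩
  intro N T V Ω _ _ _ w c σ e q f G s hw hc hσ0 hσ hq0 hq hr hA
  exact cover_quantum hw hc hσ0 hσ hq0 hq hr hA

end Pool.Agent.Results.MP_cff830_lc.QuantumReductions
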