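import Pool.Agent.R532.Vc2
import Mathlib.Tactic.FieldSimp
import Mathlib.Algebra.Order.Archimedean.Basic
import Mathlib.Data.Real.Archimedean

/-!
# Vertex cover with every ratio below 2 (and beyond) and read-once tree tensor networks

A tree tensor network `Net K V Al W` (`Pool/Agent/TH700/PA/Defs.lean`) has leaves that read one
variable each (with a vector in `K ^ W` for each of its values); an inner node combines the vectors
of its two children by an arbitrary bilinear map. It accepts the input if a linear form of the vector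
of the root is not zero. The field `K` and the weights are arbitrary, so there may be cancellations.
The tree is arbitrary; if every right child is a leaf then this is a matrix product (dynamic
programming tables, and nondeterministic, parity and probabilistic read-once oblivious programs, for
any order of the variables). The bond dimension is `card W`.

The inputs are the graphs with the vertices `Fin n`, given by the bits of the pairs of vertices; all
weights are `1`. An algorithm for vertex cover with ratio `c < 2` separates the graphs with a cover of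
at most `n / 2` vertices from the graphs all of whose covers have more than `β n` vertices,
`β = c / 2 < 1`. More generally we consider, for `0 < α` and `β < 1`, the networks which read every
pair at most once, are zero on all graphs whose covers all have more than `β n` vertices, and not zero
on all graphs with a cover of at most `α n` vertices. We prove that their bond dimension is at least
`2 ^ (n / D)`, where `D` only depends on `α` and `β`, with an explicit dependence on `α` and `β`.
This holds up to the factor `2 ^ μ` also for random networks which are never wrong on the graphs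
without a cover of `β n` vertices, and which accept every graph with a cover of at most `α n` vertices
with probability at least `2 ^ (- μ)` (the deterministic case is `R = Unit`, `μ = 0`).

Conversely, random networks of dimension `1` have success probability `4 ^ (- k)`, `k = ⌈n / g⌉`,
for `α = 1 / 2` and `β = 1 - 1 / g`, so `D` has to grow with `g`; and the exact weighted problem is
solved by a linear network over `ℚ` with `n (n + 1) - 1` nodes and bond dimension `2 ^ n` which reads
every pair exactly once.

Proof of the lower bound. Colour the vertices at random with `q ≥ 1 / α` colours and join the vertices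
of colour `0` to all others; with probability at least `1 / q` this graph has a cover of `n / q`
vertices. The nodes of the tree give a partition of the pairs into `t` parts, each of them read between
at most three nodes, such that no part contains more than `2 y ^ 2` pairs, where `y` is a small
multiple of `n`. Every part has rank at most the cube of the bond dimension. Take an independent
colouring for each part. The pairs in a set `J` of `n / g` vertices use `m_j` pairs of the `j`-th part,
which touch at least `m_j / y` vertices, so that `J` is independent in the mixture only if at least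
`(|J| choose 2) / y ≥ 3 q n` independent random colours are different from `0`; the probability is at
most `2 ^ (- 3 n)`. On the other hand, by the replacement lemma of `Pool/Agent/TH700/PA/Rank.lean` a
dense set of accepted colourings has many accepted mixtures.
-/

set_option autoImplicit false

namespace Pool.Agent.Results.MP_cff830_lc.TensorNetworks

open Pool.Agent.TH700.PA (Net)

/-- `C` is a vertex cover of the graph on the vertices `Fin n` with the edge bits `x` (the bits at
`s(v, v)` are ignored). -/
def Cover {n : ℕ} (x : Sym2 (Fin n) → Bool) (C : Finset (Fin n)) : Prop :=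
  ∀ u v, u ≠ v → x s(u, v) = true → u ∈ C ∨ v ∈ C

/-- A randomised family (a finite set `R` of networks) of tree tensor networks which separates the
graphs with a vertex cover of at most `α n` vertices from the graphs all of whose vertex covers have
more than `β n` vertices, with success probability at least `2 ^ (-μ)` on the former. -/
structure Family (α β : ℝ) (n μ : ℕ) where
  /-- the random choices -/
  R : Type
  finR : Fintype R
  neR : Nonempty R
  /-- the fields -/
  K : R → Type
  fieldK : ∀ ρ, Field (K ρ)
  /-- the bond spaces are the functions from `W ρ` to `K ρ` -/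
  W : R → Type
  finW : ∀ ρ, Fintype (W ρ)
  /-- the networks -/
  T : ∀ ρ, Net (K ρ) (Sym2 (Fin n)) Bool (W ρ)
  /-- the linear forms at the roots -/
  a : ∀ ρ, W ρ → K ρ
  once : ∀ ρ e, (T ρ).reads e ≤ 1
  sound : ∀ ρ x, (∀ C, Cover x C → β * n < C.card) → (T ρ).value (a ρ) x = 0
  complete : ∀ x, (∃ C, Cover x C ∧ (C.card : ℝ) ≤ α * n) →
    Nat.card R ≤ 2 ^ μ * Nat.card {ρ // (T ρ).value (a ρ) x ≠ 0}

/-- the bond dimension -/
def Family.dim {α β : ℝ} {n μ : ℕ} (F : Family α β n μ) (ρ : F.R) : ℕ :=
  @Fintype.card (F.W ρ) (F.finW ρ)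

theorem lower : ∃ Γ : ℕ, 1 ≤ Γ ∧ ∀ g q n μ : ℕ, 1 ≤ g → 2 ≤ q → Γ * g ^ 8 * q ^ 4 ≤ n →
    ∀ F : Family (1 / q) (1 - 1 / g) n μ,
      ∃ ρ, 2 ^ n ≤ (2 ^ μ * F.dim ρ) ^ (Γ * (g ^ 4 * q ^ 2)) := by
  obtain ⟨Γ, hΓ1, hΓ⟩ := Pool.Agent.R532.Vc.lower
  refine ⟨Γ, hΓ1, fun g q n μ hg hq hn F => ?_⟩
  let _ := F.finR
  have := F.neR
  let _ := F.fieldK
  let _ := F.finW
  refine hΓ g q n hg hq hn μ F.R F.K F.W F.T F.a F.once (fun ρ x h => F.sound ρ x fun C hC => ?_)
    (fun x h => F.complete x ?_)
  · have h1 : g * n < g * C.card + n := h C hC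
    have hg0 : (0 : ℝ) < g := by exact_mod_cast hg
    have h2 : (g : ℝ) * n < g * C.card + n := by exact_mod_cast h1
    have h3 : (1 - 1 / (g : ℝ)) * n = (g * n - n) / g := by
      field_simp
    rw [h3, div_lt_iff₀ hg0]
    linarith
  · obtain ⟨C, hC, hCq⟩ := h
    refine ⟨C, hC, ?_⟩
    have hq0 : (0 : ℝ) < q := by exact_mod_cast (by omega : 0 < q)
    have h2 : (q : ℝ) * C.card ≤ n := by exact_mod_cast hCq
    rw [one_div, ← div_eq_inv_mul, le_div_iff₀ hq0]
    linarith

/-- A family for weaker requirements. -/
def Family.weaken {α β α' β' : ℝ} {n μ : ℕ} (F : Family α β n μ) (hα : α' ≤ α) (hβ : β ≤ β') :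
    Family α' β' n μ where
  R := F.R
  finR := F.finR
  neR := F.neR
  K := F.K
  fieldK := F.fieldK
  W := F.W
  finW := F.finW
  T := F.T
  a := F.a
  once := F.once
  sound := fun ρ x h => F.sound ρ x fun C hC =>
    lt_of_le_of_lt (mul_le_mul_of_nonneg_right hβ (Nat.cast_nonneg n)) (h C hC)
  complete := fun x h => F.complete x (by
    obtain ⟨C, hC, hCq⟩ := h
    exact ⟨C, hC, hCq.trans (mul_le_mul_of_nonneg_right hα (Nat.cast_nonneg n))⟩)

theorem result :
    (∃ Γ : ℕ, ∀ g q n μ : ℕ, 1 ≤ g → 2 ≤ q → Γ * g ^ 8 * q ^ 4 ≤ n →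
      ∀ F : Family (1 / q) (1 - 1 / g) n μ,
        ∃ ρ, 2 ^ n ≤ (2 ^ μ * F.dim ρ) ^ (Γ * (g ^ 4 * q ^ 2))) ∧
    (∀ α β : ℝ, 0 < α → β < 1 → ∃ D : ℕ, ∀ n μ : ℕ, D ≤ n → ∀ F : Family α β n μ,
      ∃ ρ, 2 ^ n ≤ (2 ^ μ * F.dim ρ) ^ D) ∧
    (∀ g n k : ℕ, 1 ≤ g → 1 ≤ n → 4 * k ≤ n → n ≤ g * k →
      ∃ F : Family (1 / 2) (1 - 1 / g) n (2 * k), ∀ ρ, F.dim ρ = 1 ∧ (F.T ρ).Linear ∧
        (F.T ρ).size = n * (n + 1) - 1) ∧
    ∀ n : ℕ, 1 ≤ n → ∀ (w : Fin n → ℚ) (τ : ℚ),
      ∃ (T : Net ℚ (Sym2 (Fin n)) Bool (Finset (Fin n))) (a : Finset (Fin n) → ℚ),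
        T.Linear ∧ (∀ e, T.reads e = 1) ∧ T.size = n * (n + 1) - 1 ∧
          ∀ x, T.value a x ≠ 0 ↔ ∃ C, Cover x C ∧ ∑ v ∈ C, w v ≤ τ := by
  refine ⟨lower.imp fun _ h => h.2, fun α β hα hβ => ?_, fun g n k hg hn hk hgk => ?_, fun n hn w τ =>
    Pool.Agent.R532.Vc.upper_exact hn w τ⟩
  · obtain ⟨Γ, hΓ1, hΓ⟩ := lower
    obtain ⟨q₀, hq₀⟩ := exists_nat_gt (1 / α)
    obtain ⟨g₀, hg₀⟩ := exists_nat_gt (1 / (1 - β))
    obtain ⟨q, hq⟩ : ∃ q, q = q₀ + 2 := ⟨_, rfl⟩
    obtain ⟨g, hg⟩ : ∃ g, g = g₀ + 1 := ⟨_, rfl⟩
    refine ⟨Γ * g ^ 8 * q ^ 4 + Γ * (g ^ 4 * q ^ 2), fun n μ hn F => ?_⟩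
    have h1 : 1 / (q : ℝ) ≤ α := by
      have hq0 : (0 : ℝ) < q := by exact_mod_cast (by omega : 0 < q)
      have h2 : (q₀ : ℝ) ≤ q := by exact_mod_cast (by omega : q₀ ≤ q)
      rw [div_lt_iff₀ hα] at hq₀
      rw [div_le_iff₀ hq0]
      nlinarith
    have h2 : β ≤ 1 - 1 / (g : ℝ) := by
      have hg0 : (0 : ℝ) < g := by exact_mod_cast (by omega : 0 < g)
      have h3 : (g₀ : ℝ) ≤ g := by exact_mod_cast (by omega : g₀ ≤ g)
      have h4 : 0 < 1 - β := by linarith
      rw [div_lt_iff₀ h4] at hg₀
      have h5 : 1 / (g : ℝ) ≤ 1 - β := by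
        rw [div_le_iff₀ hg0]
        nlinarith
      linarith
    obtain ⟨ρ, hρ⟩ := hΓ g q n μ (by omega) (by omega) (by omega) (F.weaken h1 h2)
    refine ⟨ρ, ?_⟩
    have h3 : 2 ^ n ≤ (2 ^ μ * F.dim ρ) ^ (Γ * (g ^ 4 * q ^ 2)) := hρ
    have h4 : 1 ≤ 2 ^ μ * F.dim ρ := by
      rcases Nat.eq_zero_or_pos (2 ^ μ * F.dim ρ) with h0 | h0
      · exfalso
        rw [h0] at h3
        have h5 : Γ * (g ^ 4 * q ^ 2) ≠ 0 :=
          (Nat.mul_pos hΓ1 (Nat.mul_pos (pow_pos (by omega) _) (pow_pos (by omega) _))).ne'
        rw [zero_pow h5] at h3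
        have : 0 < 2 ^ n := by positivity
        omega
      · exact h0
    exact h3.trans (Nat.pow_le_pow_right h4 (Nat.le_add_left _ _))
  · obtain ⟨T, h1, h2, h3⟩ := Pool.Agent.R532.Vc.upper_random (g := g) hn hk hgk
    have hkn : k ≤ n := by omega
    refine ⟨{ R := {J : Finset (Fin n) // J.card = k}
              finR := inferInstance
              neR := ?_
              K := fun _ => ℚ
              fieldK := fun _ => inferInstance
              W := fun _ => Unit
              finW := fun _ => inferInstance
              T := T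
              a := fun _ _ => 1
              once := fun J e => ((h1 J).2.1 e).le
              sound := fun J x h => h2 J x fun C hC => ?_
              complete := fun x h => h3 x ?_ }, fun ρ => ⟨rfl, (h1 ρ).1, (h1 ρ).2.2⟩⟩
    · obtain ⟨J, -, hJ⟩ := Finset.exists_subset_card_eq
        (s := (Finset.univ : Finset (Fin n))) (n := k) (by rwa [Finset.card_univ, Fintype.card_fin])
      exact ⟨⟨J, hJ⟩⟩
    · have h4 := h C hC
      have hg0 : (0 : ℝ) < g := by exact_mod_cast hg
      have h5 : (1 - 1 / (g : ℝ)) * n = (g * n - n) / g := by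
        field_simp
      rw [h5, div_lt_iff₀ hg0] at h4
      have h6 : (g : ℝ) * n < g * C.card + n := by linarith
      exact_mod_cast h6
    · obtain ⟨C, hC, hCn⟩ := h
      refine ⟨C, hC, ?_⟩
      have h4 : (2 : ℝ) * C.card ≤ n := by linarith
      exact_mod_cast h4

end Pool.Agent.Results.MP_cff830_lc.TensorNetworks
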